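import Pool.Agent.W743.BT.Bas
import Pool.Agent.H153R4.Pl
set_option autoImplicit false

/-! Hausdorff-Young on `E n`. -/

namespace Pool.Agent.W976.BT

open Set Filter MeasureTheory
open scoped Topology ContDiff FourierTransform ENNReal RealInnerProductSpace
open Pool.Agent.W773.BRA (E Bmp chi)
open Pool.Agent.W743.BT

theorem plancherel_inv {n : ℕ} (G : E n → ℂ) (h1 : Integrable G) (h2 : MemLp G 2) :
    ∫⁻ x, ‖𝓕⁻ G x‖ₑ ^ 2 = ∫⁻ ξ, ‖G ξ‖ₑ ^ 2 := by
  rw [← Pool.Agent.H153R4.plancherel G h1 h2]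
  have h3 : ∀ x, 𝓕⁻ G x = 𝓕 G (-x) := fun x => Real.fourierInv_eq_fourier_neg G x
  simp_rw [h3]
  exact lintegral_neg_eq_self (fun x => ‖𝓕 G x‖ₑ ^ 2)

theorem fourierInv_cont {n : ℕ} (G : E n → ℂ) (h1 : Integrable G) : Continuous (𝓕⁻ G) := by
  have h3 : (𝓕⁻ G) = fun x => 𝓕 G (-x) := by
    funext x
    exact Real.fourierInv_eq_fourier_neg G x
  rw [h3]
  have hcont : Continuous (𝓕 G) := by
    have := VectorFourier.fourierIntegral_continuous (L := innerₗ (E n))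
      Real.continuous_fourierChar continuous_inner h1
    exact this
  exact hcont.comp continuous_neg

theorem enorm_fourierInv_le {n : ℕ} (G : E n → ℂ) (x : E n) : ‖𝓕⁻ G x‖ₑ ≤ ∫⁻ y, ‖G y‖ₑ := by
  rw [Real.fourierInv_eq_fourier_neg]
  have h := enorm_integral_le_lintegral_enorm (μ := volume)
    (fun v : E n => Real.fourierChar (-inner ℝ v (-x)) • G v)
  rw [Real.fourier_eq]
  refine h.trans (le_of_eq ?_)
  refine lintegral_congr fun y => ?_
  rw [← ofReal_norm, ← ofReal_norm, Circle.norm_smul]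

theorem hyn (hM : S_MARC) : S_HYN := by
  intro n p hp1 hp2
  rcases hp2.lt_or_eq with hp2 | rfl
  swap
  · refine ⟨1, one_pos, fun G h1 h2 => ?_⟩
    have e1 : (2 : ℝ) / (2 - 1) = ((2 : ℕ) : ℝ) := by norm_num
    have e2 : (1 : ℝ) / (2 - 1) = 1 := by norm_num
    have e3 : (2 : ℝ) = ((2 : ℕ) : ℝ) := by norm_num
    rw [e1, e2, ENNReal.rpow_one, ENNReal.ofReal_one, one_mul]
    have e4 : ∀ z : ℝ≥0∞, z ^ (2 : ℝ) = z ^ 2 := fun z => ENNReal.rpow_two z
    simp_rw [ENNReal.rpow_natCast, e4]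
    exact (plancherel_inv G h1 h2).le
  obtain ⟨C, hC, hMC⟩ := hM p hp1 hp2
  refine ⟨C, hC, fun G h1 h2 => ?_⟩
  set G' : E n → ℂ := h1.aestronglyMeasurable.mk G with hG'
  have hG'm : StronglyMeasurable G' := h1.aestronglyMeasurable.stronglyMeasurable_mk
  have hGG' : G =ᵐ[volume] G' := h1.aestronglyMeasurable.ae_eq_mk
  have h1' : Integrable G' := h1.congr hGG'
  have h2' : MemLp G' 2 := h2.ae_eq hGG'
  have hF : 𝓕⁻ G = 𝓕⁻ G' := by
    funext x
    rw [Real.fourierInv_eq, Real.fourierInv_eq]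
    refine integral_congr_ae ?_
    filter_upwards [hGG'] with y hy
    rw [hy]
  have hfp : ∫⁻ ξ, ‖G ξ‖ₑ ^ p = ∫⁻ ξ, ‖G' ξ‖ₑ ^ p := by
    refine lintegral_congr_ae ?_
    filter_upwards [hGG'] with y hy
    rw [hy]
  rw [hF, hfp]
  have hfm : Measurable fun x => ‖G' x‖ₑ := hG'm.measurable.enorm
  refine hMC volume volume (fun x => ‖G' x‖ₑ) (fun y => ‖𝓕⁻ G' y‖ₑ) hfm
    (fourierInv_cont G' h1').measurable.enorm ?_
  intro t ht0 ht
  have hs : MeasurableSet {x | ‖G' x‖ₑ ≤ t} := measurableSet_le hfm measurable_const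
  have hl : MeasurableSet {x | t < ‖G' x‖ₑ} := measurableSet_lt measurable_const hfm
  set Gs : E n → ℂ := Set.indicator {x | ‖G' x‖ₑ ≤ t} G' with hGs
  set Gl : E n → ℂ := Set.indicator {x | t < ‖G' x‖ₑ} G' with hGl
  have hGsi : Integrable Gs := h1'.indicator hs
  have hGli : Integrable Gl := h1'.indicator hl
  have hGs2 : MemLp Gs 2 := h2'.indicator hs
  have hsum : G' = Gs + Gl := by
    funext x
    simp only [Pi.add_apply, hGs, hGl, Set.indicator_apply, Set.mem_ofPred_eq]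
    by_cases h : ‖G' x‖ₑ ≤ t
    · rw [if_pos h, if_neg (not_lt.2 h), add_zero]
    · rw [if_neg h, if_pos (not_le.1 h), zero_add]
  refine ⟨fun y => ‖𝓕⁻ Gs y‖ₑ, (fourierInv_cont Gs hGsi).measurable.enorm, ?_, ?_⟩
  · refine Eventually.of_forall fun y => ?_
    have e1 : 𝓕⁻ G' y = 𝓕⁻ Gs y + 𝓕⁻ Gl y := by
      conv_lhs => rw [hsum]
      rw [Real.fourierInv_eq_fourier_neg, Real.fourierInv_eq_fourier_neg,
        Real.fourierInv_eq_fourier_neg, Real.fourier_eq, Real.fourier_eq, Real.fourier_eq,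
        ← integral_add]
      · refine integral_congr_ae (Eventually.of_forall fun v => ?_)
        simp only [Pi.add_apply, smul_add]
      · exact (Real.fourierIntegral_convergent_iff (-y)).2 hGsi
      · exact (Real.fourierIntegral_convergent_iff (-y)).2 hGli
    have e2 : ‖𝓕⁻ Gl y‖ₑ ≤ ∫⁻ x in {x | t < ‖G' x‖ₑ}, ‖G' x‖ₑ := by
      refine (enorm_fourierInv_le Gl y).trans (le_of_eq ?_)
      rw [← lintegral_indicator hl]
      refine lintegral_congr fun x => ?_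
      simp only [hGl, Set.indicator_apply]
      split_ifs
      · rfl
      · simp
    calc ‖𝓕⁻ G' y‖ₑ = ‖𝓕⁻ Gs y + 𝓕⁻ Gl y‖ₑ := by rw [e1]
      _ ≤ ‖𝓕⁻ Gs y‖ₑ + ‖𝓕⁻ Gl y‖ₑ := enorm_add_le _ _
      _ ≤ ‖𝓕⁻ Gs y‖ₑ + ∫⁻ x in {x | t < ‖G' x‖ₑ}, ‖G' x‖ₑ := by gcongr
      _ = _ := add_comm _ _
  · rw [plancherel_inv Gs hGsi hGs2, ← lintegral_indicator hs]
    refine le_of_eq (lintegral_congr fun x => ?_)
    simp only [hGs, Set.indicator_apply]
    split_ifs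
    · rfl
    · simp

end Pool.Agent.W976.BT
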