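import Pool.Agent.W976.BT.NearB1
set_option autoImplicit false

/-! Local estimate, `2 ≤ p`. -/

namespace Pool.Agent.W976.BT

open Set Filter MeasureTheory
open scoped Topology ContDiff FourierTransform ENNReal RealInnerProductSpace
open Pool.Agent.W773.BRA (E Bmp chi)
open Pool.Agent.W743.BT

theorem pt_bound {n M : ℕ} (hn : 2 ≤ n) {q B : ℝ} (hq : 0 < q) (m : ℂ) (hm : ‖m‖ ≤ B)
    (a : Fin M → Fin n → ℂ) : ‖m * ∑ k, ∏ j, a k j‖ₑ ^ q ≤
      ENNReal.ofReal B ^ q * ∏ j, (∑ k, ‖a k j‖ₑ ^ 2) ^ (q / 2) := by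
  rw [enorm_mul, ENNReal.mul_rpow_of_nonneg _ _ hq.le]
  refine mul_le_mul' ?_ ?_
  · refine ENNReal.rpow_le_rpow ?_ hq.le
    rw [← ofReal_norm]
    exact ENNReal.ofReal_le_ofReal hm
  · rw [ENNReal.prod_rpow_of_nonneg (by positivity)]
    have h2 : ‖∑ k, ∏ j, a k j‖ₑ ^ q = (‖∑ k, ∏ j, a k j‖ₑ ^ 2) ^ (q / 2) := by
      rw [← ENNReal.rpow_natCast, ← ENNReal.rpow_mul]
      congr 1
      push_cast
      ring
    rw [h2]
    exact ENNReal.rpow_le_rpow (tens_sq_le hn a) (by positivity)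

/-- the slice lemma applied to the symbol set -/
theorem slice {n M : ℕ} (hSL : S_SL) (hMEAS : S_MEAS) (hn : 2 ≤ n) (N : ℝ) (K : ℕ)
    (κ : Fin n → ℕ) (hK : (4 : ℝ) ^ K ≤ N) (hK2 : N < 4 ^ (K + 1)) (hκ : ∀ j, κ j ≤ K)
    {α α₀ : ℝ} (hα0 : 0 ≤ α) (hnα : (n : ℝ) * α ≤ 1) (hα : α ≤ α₀) (hα₀ : α₀ < 1)
    (hN : 1 ≤ N) (g : Fin M → Fin n → ℝ → ℂ) (hg : ∀ k j, Nice (g k j)) :
    ∫⁻ x in A N K κ, ∏ j, Set.indicator {t : ℝ | |t| ≤ 2 * (1 / 2 : ℝ) ^ κ j}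
        (fun t => (W743.BT.sq (fun k => 𝓕 (g k j)) t) ^ (1 - α₀)) (x j) ≤
      ∏ j, (ENNReal.ofReal ((16 / (N * (1 / 2 : ℝ) ^ κ j)) ^ α * (4 * (1 / 2 : ℝ) ^ κ j) ^ (α₀ - α))
        * (∫⁻ t, W743.BT.sq (fun k => g k j) t) ^ (1 - α₀)) := by
  obtain ⟨hA, hsl⟩ := hMEAS n N K κ hK hK2 hκ
  have hmeas : ∀ j, Measurable (Set.indicator {t : ℝ | |t| ≤ 2 * (1 / 2 : ℝ) ^ κ j}
        (fun t => (W743.BT.sq (fun k => 𝓕 (g k j)) t) ^ (1 - α₀))) := by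
    intro j
    refine Measurable.indicator ?_ ?_
    · exact (sq_fourier_meas fun k => hg k j).pow_const _
    · exact measurableSet_le measurable_norm measurable_const
  refine (hSL n hn (A N K κ) hA _ hsl _ hmeas α hα0 hnα).trans ?_
  refine Finset.prod_le_prod' fun j _ => ?_
  have hl : (0 : ℝ) < (1 / 2 : ℝ) ^ κ j := by positivity
  have hNl : 0 < N * (1 / 2 : ℝ) ^ κ j := mul_pos (by linarith) hl
  have h1 := freq_side (u := W743.BT.sq (fun k => 𝓕 (g k j)))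
    (sq_fourier_meas fun k => hg k j) (l := (1 / 2 : ℝ) ^ κ j) hα hα₀
  rw [sq_planch _ fun k => hg k j] at h1
  calc _ ≤ ENNReal.ofReal (16 / (N * (1 / 2 : ℝ) ^ κ j)) ^ α *
        (ENNReal.ofReal (4 * (1 / 2 : ℝ) ^ κ j) ^ (α₀ - α) *
          (∫⁻ t, W743.BT.sq (fun k => g k j) t) ^ (1 - α₀)) := mul_le_mul' le_rfl h1
    _ = _ := by
        rw [← mul_assoc, ENNReal.ofReal_rpow_of_nonneg (by positivity) hα0,
          ENNReal.ofReal_rpow_of_nonneg (by positivity) (by linarith),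
          ← ENNReal.ofReal_mul (by positivity)]

theorem nearb (hHYN : S_HYN) (hSL : S_SL) (hMEAS : S_MEAS) (hMK : S_MK) (hTK : S_TK)
    (hTENF : S_TENF) : S_NEARB := by
  intro n hn p hp h hh
  obtain ⟨B, hB0, hB⟩ := bmp_bdd hh
  have hp1 : 0 < p - 1 := by linarith
  have hp0 : 0 < p := by linarith
  set q : ℝ := p / (p - 1) with hq
  have hq1 : 1 < q := by
    rw [hq, lt_div_iff₀ hp1]
    linarith
  have hq2 : q ≤ 2 := by
    rw [hq, div_le_iff₀ hp1]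
    linarith
  have hqp : q / (q - 1) = p := by
    have : q - 1 = 1 / (p - 1) := by
      rw [hq]
      field_simp
      ring
    rw [this, hq]
    field_simp
  have hqp2 : 1 / (q - 1) = p - 1 := by
    have : q - 1 = 1 / (p - 1) := by
      rw [hq]
      field_simp
      ring
    rw [this, one_div_one_div]
  obtain ⟨C₁, hC₁, hHY⟩ := hHYN n q hq1 hq2
  rw [hqp, hqp2] at hHY
  set α₀ : ℝ := 1 - q / 2 with hα₀
  have hα₀0 : 0 ≤ α₀ := by rw [hα₀]; linarith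
  have hα₀1 : α₀ < 1 := by rw [hα₀]; linarith
  have hα₀q : 1 - α₀ = q / 2 := by rw [hα₀]; ring
  have hn0 : (0 : ℝ) < n := by
    have : 0 < n := by omega
    exact_mod_cast this
  set α : ℝ := min α₀ (1 / n) with hα
  have hα0 : 0 ≤ α := le_min hα₀0 (by positivity)
  have hαα : α ≤ α₀ := min_le_left _ _
  have hnα : (n : ℝ) * α ≤ 1 := by
    calc (n : ℝ) * α ≤ n * (1 / n) := mul_le_mul_of_nonneg_left (min_le_right _ _) hn0.le
      _ = 1 := by field_simp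
  have he0 : α₀ * (p - 1) = p / 2 - 1 := by
    rw [hα₀, hq]
    field_simp
    ring
  have he1 : (n : ℝ) * ((α₀ - α) * (p - 1)) ≤ p * Ep n p := by
    have hEp0 : 0 ≤ Ep n p := le_max_left _ _
    rcases le_total α₀ (1 / n) with h1 | h1
    · have : α = α₀ := min_eq_left h1
      rw [this, sub_self, zero_mul, mul_zero]
      positivity
    · have h2 : α = 1 / n := min_eq_right h1
      have h3 : (n : ℝ) * ((α₀ - α) * (p - 1)) = n * (p / 2 - 1) - (p - 1) := by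
        rw [h2, sub_mul, he0]
        field_simp
      have h4 : (n : ℝ) * |1 / 2 - 1 / p| - 1 / 2 ≤ Ep n p := le_max_right _ _
      have h5 : 1 / 2 - 1 / p ≤ |1 / 2 - 1 / p| := le_abs_self _
      have h6 : (n : ℝ) * (1 / 2 - 1 / p) ≤ n * |1 / 2 - 1 / p| :=
        mul_le_mul_of_nonneg_left h5 hn0.le
      have h7 : p * ((n : ℝ) * (1 / 2 - 1 / p) - 1 / 2) ≤ p * Ep n p :=
        mul_le_mul_of_nonneg_left (by linarith) hp0.le
      have h8 : p * ((n : ℝ) * (1 / 2 - 1 / p) - 1 / 2) = n * (p / 2 - 1) - p / 2 := by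
        field_simp
      rw [h3]
      linarith
  set Kc : ℝ := (16 : ℝ) ^ (α * (p - 1)) * 4 ^ ((α₀ - α) * (p - 1)) * 3 ^ (α₀ * (p - 1)) with hKc
  have hKc0 : 0 < Kc := by positivity
  refine ⟨C₁ * B ^ p * Kc ^ n, by positivity, ?_⟩
  intro N K κ Λ M g c hN hK hK2 hκ hΛ hg hsupp
  have hN0 : 0 < N := by linarith
  have hΛ0 : 0 < Λ := by linarith
  obtain ⟨hmk, -⟩ := hMK n h hh N K hN
  obtain ⟨m1, m2, m3, m4⟩ := hmk κ
  obtain ⟨t1, t2, t3, t4⟩ := hTENF n M g hg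
  obtain ⟨k1, k2, k3, -, -⟩ := hTK n (mk h N K κ) m1.continuous m2 (tens g) t2
  -- Hausdorff-Young
  have s1 : ∫⁻ x in {x : E n | ∀ j, |x j - c j| ≤ Len N Λ (κ j) / 2},
        ‖TT (mk h N K κ) (tens g) x‖ₑ ^ p ≤ ENNReal.ofReal C₁ *
          (∫⁻ ξ : E n, ‖mk h N K κ ξ * 𝓕 (tens g) ξ‖ₑ ^ q) ^ (p - 1) :=
    (setLIntegral_le_lintegral _ _).trans (hHY _ k2 k3)
  -- pointwise bound
  set H : Fin n → ℝ → ℝ≥0∞ := fun j => Set.indicator {t : ℝ | |t| ≤ 2 * (1 / 2 : ℝ) ^ κ j}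
        (fun t => (W743.BT.sq (fun k => 𝓕 (g k j)) t) ^ (1 - α₀)) with hH
  have s2 : ∀ ξ : E n, ‖mk h N K κ ξ * 𝓕 (tens g) ξ‖ₑ ^ q ≤
      (fun y : Fin n → ℝ => ENNReal.ofReal B ^ q *
        Set.indicator (A N K κ) (fun y => ∏ j, H j (y j)) y) (fun j => ξ j) := by
    intro ξ
    simp only
    by_cases hξ : mk h N K κ ξ = 0
    · rw [hξ, zero_mul, enorm_zero, ENNReal.zero_rpow_of_pos (by linarith)]
      exact zero_le
    · have hA := (m3 ξ hκ hξ).1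
      rw [Set.indicator_of_mem hA, t4 ξ]
      refine (pt_bound hn (by linarith : 0 < q) _ (m4 B hB ξ) _).trans (le_of_eq ?_)
      congr 1
      refine Finset.prod_congr rfl fun j _ => ?_
      rw [hH]
      simp only
      have h1 : |ξ j| ≤ 2 * (1 / 2 : ℝ) ^ κ j := (hA.2.2 j).1
      rw [Set.indicator_of_mem (show ξ j ∈ {t : ℝ | |t| ≤ 2 * (1 / 2 : ℝ) ^ κ j} from h1), hα₀q]
      rfl
  have hAm : MeasurableSet (A N K κ) := (hMEAS n N K κ hK hK2 hκ).1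
  have s3 : ∫⁻ ξ : E n, ‖mk h N K κ ξ * 𝓕 (tens g) ξ‖ₑ ^ q ≤ ENNReal.ofReal B ^ q *
      ∫⁻ y in A N K κ, ∏ j, H j (y j) := by
    refine (lintegral_mono s2).trans ?_
    rw [lint_E (fun y : Fin n → ℝ => ENNReal.ofReal B ^ q *
        Set.indicator (A N K κ) (fun y => ∏ j, H j (y j)) y)]
    rw [lintegral_const_mul' _ _ (ENNReal.rpow_ne_top_of_nonneg (by linarith)
      ENNReal.ofReal_ne_top), lintegral_indicator hAm]
  have s4 := slice hSL hMEAS hn N K κ hK hK2 hκ hα0 hnα hαα hα₀1 hN g hg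
  have s5 : (∫⁻ ξ : E n, ‖mk h N K κ ξ * 𝓕 (tens g) ξ‖ₑ ^ q) ^ (p - 1) ≤
      ENNReal.ofReal (B ^ p) * ∏ j, (ENNReal.ofReal (Kc * Λ ^ (α₀ * (p - 1)) *
        N ^ ((α₀ - α) * (p - 1))) * ∫⁻ t, W743.BT.sq (fun k => g k j) t ^ (p / 2)) := by
    refine (ENNReal.rpow_le_rpow (s3.trans (mul_le_mul' le_rfl s4)) hp1.le).trans ?_
    rw [ENNReal.mul_rpow_of_nonneg _ _ hp1.le, ← ENNReal.prod_rpow_of_nonneg hp1.le,
      ← ENNReal.rpow_mul]
    have e1 : q * (p - 1) = p := by rw [hq]; field_simp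
    rw [e1, ENNReal.ofReal_rpow_of_pos hB0]
    refine mul_le_mul' le_rfl (Finset.prod_le_prod' fun j _ => ?_)
    rw [ENNReal.mul_rpow_of_nonneg _ _ hp1.le, ← ENNReal.rpow_mul]
    have e2 : (1 - α₀) * (p - 1) = p / 2 := by
      rw [hα₀q, hq]
      field_simp
    rw [e2]
    have hl : (0 : ℝ) < (1 / 2 : ℝ) ^ κ j := by positivity
    have hl1 : (1 / 2 : ℝ) ^ κ j ≤ 1 := pow_le_one₀ (by norm_num) (by norm_num)
    have hNl : 0 < N * (1 / 2 : ℝ) ^ κ j := mul_pos hN0 hl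
    have h1 := local_sq (fun k => g k j) (fun k => hg k j) (c := c j)
      (L := 3 / 2 * Len N Λ (κ j)) hp (fun k t ht => hsupp k j t ht)
    have e3 : 2 * (3 / 2 * Len N Λ (κ j)) = 3 * (Λ * (N * (1 / 2 : ℝ) ^ κ j)) := by
      unfold Len
      ring
    rw [e3] at h1
    have h2 := nums (α := α) (α₀ := α₀) (β := p - 1) hN hΛ hl hl1 hαα hp1.le
    rw [ENNReal.ofReal_rpow_of_nonneg (by positivity) hp1.le]
    calc _ ≤ ENNReal.ofReal (((16 / (N * (1 / 2 : ℝ) ^ κ j)) ^ α *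
            (4 * (1 / 2 : ℝ) ^ κ j) ^ (α₀ - α)) ^ (p - 1)) *
          (ENNReal.ofReal (3 * (Λ * (N * (1 / 2 : ℝ) ^ κ j))) ^ (p / 2 - 1) *
            ∫⁻ t, W743.BT.sq (fun k => g k j) t ^ (p / 2)) := mul_le_mul' le_rfl h1
      _ = ENNReal.ofReal (((16 / (N * (1 / 2 : ℝ) ^ κ j)) ^ α *
            (4 * (1 / 2 : ℝ) ^ κ j) ^ (α₀ - α)) ^ (p - 1) *
            (3 * (Λ * (N * (1 / 2 : ℝ) ^ κ j))) ^ (α₀ * (p - 1))) *
            ∫⁻ t, W743.BT.sq (fun k => g k j) t ^ (p / 2) := by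
          rw [← mul_assoc, ← he0, ENNReal.ofReal_rpow_of_pos (by positivity),
            ← ENNReal.ofReal_mul (by positivity)]
      _ ≤ _ := mul_le_mul' (ENNReal.ofReal_le_ofReal h2) le_rfl
  refine (s1.trans (mul_le_mul' le_rfl s5)).trans ?_
  rw [Finset.prod_mul_distrib, Finset.prod_const, Finset.card_univ, Fintype.card_fin,
    ← mul_assoc, ← mul_assoc, ← ENNReal.ofReal_pow (by positivity),
    ← ENNReal.ofReal_mul hC₁.le, ← ENNReal.ofReal_mul (by positivity)]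
  refine mul_le_mul' (ENNReal.ofReal_le_ofReal ?_) le_rfl
  have f1 : (Kc * Λ ^ (α₀ * (p - 1)) * N ^ ((α₀ - α) * (p - 1))) ^ n ≤
      Kc ^ n * Λ ^ ((n : ℝ) * p) * N ^ (p * Ep n p) := by
    rw [mul_pow, mul_pow]
    have g1 : (Λ ^ (α₀ * (p - 1))) ^ n ≤ Λ ^ ((n : ℝ) * p) := by
      rw [← Real.rpow_natCast, ← Real.rpow_mul hΛ0.le]
      refine Real.rpow_le_rpow_of_exponent_le hΛ ?_
      rw [he0, mul_comm]
      refine mul_le_mul_of_nonneg_left ?_ hn0.le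
      linarith
    have g2 : (N ^ ((α₀ - α) * (p - 1))) ^ n ≤ N ^ (p * Ep n p) := by
      rw [← Real.rpow_natCast, ← Real.rpow_mul hN0.le]
      refine Real.rpow_le_rpow_of_exponent_le hN ?_
      rw [mul_comm]
      exact he1
    gcongr
  calc C₁ * B ^ p * (Kc * Λ ^ (α₀ * (p - 1)) * N ^ ((α₀ - α) * (p - 1))) ^ n
      ≤ C₁ * B ^ p * (Kc ^ n * Λ ^ ((n : ℝ) * p) * N ^ (p * Ep n p)) :=
        mul_le_mul_of_nonneg_left f1 (by positivity)
    _ = _ := by ring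

end Pool.Agent.W976.BT
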