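import Pool.Agent.W743.BT.Bas
import Pool.Agent.H153R4.Pl
set_option autoImplicit false

/-! Local estimate, `2 ≤ p`: helper lemmas. -/

namespace Pool.Agent.W976.BT

open Set Filter MeasureTheory
open scoped Topology ContDiff FourierTransform ENNReal RealInnerProductSpace
open Pool.Agent.W773.BRA (E Bmp chi)
open Pool.Agent.W743.BT

theorem bmp_bdd {h : ℝ → ℝ} (hh : Bmp h) : ∃ B : ℝ, 0 < B ∧ ∀ u, |h u| ≤ B := by
  obtain ⟨B, hB⟩ := (isCompact_Icc (a := (1 / 2 : ℝ)) (b := 2)).exists_bound_of_continuousOn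
    hh.1.continuous.continuousOn
  refine ⟨max B 1, lt_max_of_lt_right one_pos, fun u => ?_⟩
  by_cases hu : u ∈ Icc (1 / 2 : ℝ) 2
  · have := hB u hu
    rw [Real.norm_eq_abs] at this
    exact this.trans (le_max_left _ _)
  · rw [hh.2 u hu, abs_zero]
    exact le_trans zero_le_one (le_max_right _ _)

/-- Hoelder's inequality on a set -/
theorem holder_set {u : ℝ → ℝ≥0∞} (hu : Measurable u) (I : Set ℝ) {s : ℝ}
    (hs0 : 0 < s) (hs1 : s ≤ 1) :
    ∫⁻ t in I, u t ^ s ≤ volume I ^ (1 - s) * (∫⁻ t in I, u t) ^ s := by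
  rcases hs1.lt_or_eq with hs1 | rfl
  swap
  · simp
  have hpq : (1 / s).HolderConjugate (1 / (1 - s)) := by
    rw [Real.holderConjugate_iff]
    refine ⟨?_, ?_⟩
    · rw [lt_div_iff₀ hs0]
      linarith
    · have : (1 - s) ≠ 0 := by linarith
      field_simp
      ring
  have h := ENNReal.lintegral_mul_le_Lp_mul_Lq (volume.restrict I) hpq
    (f := fun t => u t ^ s) (g := fun _ => 1) (hu.pow_const s).aemeasurable
    aemeasurable_const
  simp only [Pi.mul_apply, mul_one, ENNReal.one_rpow, lintegral_const, one_mul,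
    Measure.restrict_apply_univ] at h
  have e1 : ∀ t, (u t ^ s) ^ (1 / s) = u t := by
    intro t
    rw [← ENNReal.rpow_mul, mul_one_div_cancel hs0.ne', ENNReal.rpow_one]
  simp only [e1, one_div_one_div] at h
  rw [mul_comm]
  exact h

theorem fourier_cont (g : ℝ → ℂ) (h1 : Integrable g) : Continuous (𝓕 g) := by
  have := VectorFourier.fourierIntegral_continuous (L := innerₗ ℝ)
    Real.continuous_fourierChar continuous_inner h1
  exact this

theorem sq_fourier_meas {M : ℕ} {g : Fin M → ℝ → ℂ} (hg : ∀ k, Nice (g k)) :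
    Measurable (sq (fun k => 𝓕 (g k))) :=
  sq_meas fun k => (fourier_cont (g k) (hg k).2.1).measurable

theorem sq_planch {M : ℕ} (g : Fin M → ℝ → ℂ) (hg : ∀ k, Nice (g k)) :
    ∫⁻ t, sq (fun k => 𝓕 (g k)) t = ∫⁻ t, sq g t := by
  simp only [Pool.Agent.W743.BT.sq]
  rw [lintegral_finsetSum, lintegral_finsetSum]
  · exact Finset.sum_congr rfl fun k _ =>
      Pool.Agent.H153R4.plancherel (g k) (hg k).2.1 (hg k).2.2
  · exact fun k _ => (hg k).1.enorm.pow_const 2
  · exact fun k _ => (fourier_cont (g k) (hg k).2.1).measurable.enorm.pow_const 2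

/-- the local Hoelder inequality for the square function -/
theorem local_sq {M : ℕ} (g : Fin M → ℝ → ℂ) (hg : ∀ k, Nice (g k)) {c L p : ℝ} (hp : 2 ≤ p)
    (hsupp : ∀ k t, L < |t - c| → g k t = 0) :
    (∫⁻ t, sq g t) ^ (p / 2) ≤ ENNReal.ofReal (2 * L) ^ (p / 2 - 1) *
      ∫⁻ t, sq g t ^ (p / 2) := by
  have hp0 : 0 < p := by linarith
  have hsm : Measurable (sq g) := sq_meas fun k => (hg k).1
  set I : Set ℝ := Icc (c - L) (c + L) with hI
  have hvol : volume I = ENNReal.ofReal (2 * L) := by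
    rw [hI, Real.volume_Icc]
    congr 1
    ring
  have h1 : ∫⁻ t, sq g t = ∫⁻ t in I, (sq g t ^ (p / 2)) ^ (2 / p) := by
    rw [← lintegral_indicator measurableSet_Icc]
    refine lintegral_congr fun t => ?_
    rw [Set.indicator_apply]
    split_ifs with ht
    · rw [← ENNReal.rpow_mul]
      have : p / 2 * (2 / p) = 1 := by field_simp
      rw [this, ENNReal.rpow_one]
    · have h2 : L < |t - c| := by
        by_contra hcon
        push Not at hcon
        apply ht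
        rw [Set.mem_Icc]
        have := abs_le.1 hcon
        constructor <;> linarith
      simp [Pool.Agent.W743.BT.sq, hsupp _ t h2]
  have h2 := holder_set (u := fun t => sq g t ^ (p / 2)) (hsm.pow_const _) I
    (s := 2 / p) (by positivity) (by rw [div_le_one hp0]; exact hp)
  rw [← h1, hvol] at h2
  have h3 : ∫⁻ t in I, sq g t ^ (p / 2) ≤ ∫⁻ t, sq g t ^ (p / 2) :=
    setLIntegral_le_lintegral _ _
  calc (∫⁻ t, sq g t) ^ (p / 2)
      ≤ (ENNReal.ofReal (2 * L) ^ (1 - 2 / p) * (∫⁻ t in I, sq g t ^ (p / 2)) ^ (2 / p)) ^ (p / 2) :=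
        ENNReal.rpow_le_rpow h2 (by positivity)
    _ = ENNReal.ofReal (2 * L) ^ (p / 2 - 1) * ∫⁻ t in I, sq g t ^ (p / 2) := by
        rw [ENNReal.mul_rpow_of_nonneg _ _ (by positivity), ← ENNReal.rpow_mul, ← ENNReal.rpow_mul]
        have e1 : (1 - 2 / p) * (p / 2) = p / 2 - 1 := by field_simp
        have e2 : 2 / p * (p / 2) = 1 := by field_simp
        rw [e1, e2, ENNReal.rpow_one]
    _ ≤ _ := by gcongr

/-- the frequency side -/
theorem freq_side {u : ℝ → ℝ≥0∞} (hu : Measurable u) {l α α₀ : ℝ}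
    (hα : α ≤ α₀) (hα₀ : α₀ < 1) :
    (∫⁻ t, (Set.indicator {t : ℝ | |t| ≤ 2 * l} (fun t => u t ^ (1 - α₀)) t) ^ (1 / (1 - α))) ^
      (1 - α) ≤ ENNReal.ofReal (4 * l) ^ (α₀ - α) * (∫⁻ t, u t) ^ (1 - α₀) := by
  have h1 : 0 < 1 - α₀ := by linarith
  have h2 : 0 < 1 - α := by linarith
  have hI : {t : ℝ | |t| ≤ 2 * l} = Icc (-(2 * l)) (2 * l) := by
    ext t
    simp [abs_le]
  have hvol : volume {t : ℝ | |t| ≤ 2 * l} = ENNReal.ofReal (4 * l) := by
    rw [hI, Real.volume_Icc]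
    congr 1
    ring
  set s : ℝ := (1 - α₀) / (1 - α) with hs
  have hs0 : 0 < s := div_pos h1 h2
  have hs1 : s ≤ 1 := by
    rw [hs, div_le_one h2]
    linarith
  have hmeas : MeasurableSet {t : ℝ | |t| ≤ 2 * l} := by
    rw [hI]
    exact measurableSet_Icc
  have h3 : ∫⁻ t, (Set.indicator {t : ℝ | |t| ≤ 2 * l} (fun t => u t ^ (1 - α₀)) t) ^ (1 / (1 - α))
      = ∫⁻ t in {t : ℝ | |t| ≤ 2 * l}, u t ^ s := by
    rw [← lintegral_indicator hmeas]
    refine lintegral_congr fun t => ?_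
    rw [Set.indicator_apply, Set.indicator_apply]
    split_ifs
    · rw [← ENNReal.rpow_mul]
      congr 1
      rw [hs]
      ring
    · exact ENNReal.zero_rpow_of_pos (by positivity)
  rw [h3]
  have h4 := holder_set hu {t : ℝ | |t| ≤ 2 * l} hs0 hs1
  rw [hvol] at h4
  calc (∫⁻ t in {t : ℝ | |t| ≤ 2 * l}, u t ^ s) ^ (1 - α)
      ≤ (ENNReal.ofReal (4 * l) ^ (1 - s) * (∫⁻ t in {t : ℝ | |t| ≤ 2 * l}, u t) ^ s) ^ (1 - α) :=
        ENNReal.rpow_le_rpow h4 h2.le
    _ = ENNReal.ofReal (4 * l) ^ (α₀ - α) *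
          (∫⁻ t in {t : ℝ | |t| ≤ 2 * l}, u t) ^ (1 - α₀) := by
        rw [ENNReal.mul_rpow_of_nonneg _ _ h2.le, ← ENNReal.rpow_mul, ← ENNReal.rpow_mul]
        have e2 : s * (1 - α) = 1 - α₀ := by rw [hs]; field_simp
        have e1 : (1 - s) * (1 - α) = α₀ - α := by linear_combination (-1 : ℝ) * e2
        rw [e1, e2]
    _ ≤ _ := by
        gcongr
        exact Measure.restrict_le_self

/-- the numbers -/
theorem nums {α α₀ β N Λ l : ℝ} (hN : 1 ≤ N) (hΛ : 1 ≤ Λ) (hl0 : 0 < l) (hl1 : l ≤ 1)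
    (hα : α ≤ α₀) (hβ : 0 ≤ β) :
    ((16 / (N * l)) ^ α * (4 * l) ^ (α₀ - α)) ^ β * (3 * (Λ * (N * l))) ^ (α₀ * β) ≤
      ((16 : ℝ) ^ (α * β) * 4 ^ ((α₀ - α) * β) * 3 ^ (α₀ * β)) * Λ ^ (α₀ * β) *
        N ^ ((α₀ - α) * β) := by
  have hN0 : 0 < N := by linarith
  have hΛ0 : 0 < Λ := by linarith
  have hNl : 0 < N * l := mul_pos hN0 hl0
  have a1 : (0 : ℝ) < 16 / (N * l) := by positivity
  have a2 : (0 : ℝ) < 4 * l := by positivity
  have a3 : (0 : ℝ) < 3 * (Λ * (N * l)) := by positivity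
  have b1 := Real.rpow_pos_of_pos a1 α
  have b2 := Real.rpow_pos_of_pos a2 (α₀ - α)
  have b3 := Real.rpow_pos_of_pos a3 (α₀ * β)
  have b4 := Real.rpow_pos_of_pos (mul_pos b1 b2) β
  have c1 : (0 : ℝ) < 16 ^ (α * β) := by positivity
  have c2 : (0 : ℝ) < 4 ^ ((α₀ - α) * β) := by positivity
  have c3 : (0 : ℝ) < 3 ^ (α₀ * β) := by positivity
  have c4 := Real.rpow_pos_of_pos hΛ0 (α₀ * β)
  have c5 := Real.rpow_pos_of_pos hN0 ((α₀ - α) * β)
  rw [← Real.log_le_log_iff (mul_pos b4 b3) (by positivity)]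
  rw [Real.log_mul b4.ne' b3.ne', Real.log_rpow (mul_pos b1 b2), Real.log_mul b1.ne' b2.ne',
    Real.log_rpow a1, Real.log_rpow a2, Real.log_rpow a3,
    Real.log_div (by norm_num) hNl.ne', Real.log_mul hN0.ne' hl0.ne',
    Real.log_mul (by norm_num) hl0.ne', Real.log_mul (by norm_num) (mul_pos hΛ0 hNl).ne',
    Real.log_mul hΛ0.ne' hNl.ne', Real.log_mul hN0.ne' hl0.ne',
    Real.log_mul (by positivity) c5.ne', Real.log_mul (by positivity) c4.ne',
    Real.log_mul (by positivity) c3.ne', Real.log_mul c1.ne' c2.ne',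
    Real.log_rpow (by norm_num), Real.log_rpow (by norm_num), Real.log_rpow (by norm_num),
    Real.log_rpow hΛ0, Real.log_rpow hN0]
  have hlog : Real.log l ≤ 0 := Real.log_nonpos hl0.le hl1
  have h1 : 0 ≤ (α₀ - α) * β := mul_nonneg (by linarith) hβ
  have h2 : (α₀ - α) * β * Real.log l ≤ 0 := mul_nonpos_of_nonneg_of_nonpos h1 hlog
  nlinarith

end Pool.Agent.W976.BT
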